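import Pool.Agent.Lib.CLN.St

/-! MP_bd3536_an: the expected condition length of the linear homotopy with the start pair
`(g, e_0)` is at most `1400 N^7 ∏ d_i`. This is polynomial in `N` on the class of all degree
patterns in which at most `k` nonlinear equations have degree below `n^(1 + 1/m)`. -/

set_option autoImplicit false

open MeasureTheory
open scoped ENNReal NNReal ComplexConjugate

namespace Pool.Agent.Results.MP_bd3536_an.ConditionLengthBound

open Pool.Agent.Lib.CLN

private theorem deg_le (n : ℕ) (hn : 1 ≤ n) (d : Fin n → ℕ) (i : Fin n) :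
    d i ≤ Fintype.card (Idx d) := by
  classical
  obtain ⟨m, rfl⟩ : ∃ m, n = m + 1 := ⟨n - 1, by omega⟩
  have h01 : (0 : Fin (m + 1 + 1)) ≠ 1 := by
    intro h
    have := congrArg Fin.val h
    simp at this
  let e : Fin (d i) → Idx d := fun a => ⟨i, ⟨Pi.single 0 (a : ℕ) + Pi.single 1 (d i - a), by
    rw [Finset.mem_piAntidiag]
    refine ⟨?_, fun _ _ => Finset.mem_univ _⟩
    have ha : (a : ℕ) < d i := a.2
    simp only [Pi.add_apply, Finset.sum_add_distrib, Finset.sum_pi_single', Finset.mem_univ,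
      if_true]
    omega⟩⟩
  have he : Function.Injective e := by
    intro a b hab
    have h1 : (⟨i, _⟩ : Idx d) = ⟨i, _⟩ := hab
    have h2 := eq_of_heq (Sigma.mk.inj_iff.1 h1).2
    have h3 := congrFun (congrArg Subtype.val h2) 0
    simp only [Pi.add_apply, Pi.single_eq_same, Pi.single_eq_of_ne h01, add_zero] at h3
    exact Fin.ext h3
  have := Fintype.card_le_of_injective e he
  simpa using this

private theorem pow_le_card (n : ℕ) (hn : 1 ≤ n) (D : ℕ) :
    D ^ n ≤ n ^ n * Fintype.card (Mon n D) := by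
  classical
  have hs : ∀ a : Fin n → Fin (D / n + 1), ∑ i, (a i : ℕ) ≤ D := by
    intro a
    calc ∑ i, (a i : ℕ) ≤ ∑ _i : Fin n, D / n :=
          Finset.sum_le_sum fun i _ => Nat.lt_succ_iff.1 (a i).2
      _ = n * (D / n) := by simp
      _ ≤ D := Nat.mul_div_le D n
  let e : (Fin n → Fin (D / n + 1)) → Mon n D := fun a =>
    ⟨Fin.cons (D - ∑ i, (a i : ℕ)) (fun i => (a i : ℕ)), by
      rw [Finset.mem_piAntidiag]
      refine ⟨?_, fun _ _ => Finset.mem_univ _⟩
      rw [Fin.sum_univ_succ]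
      simp only [Fin.cons_zero, Fin.cons_succ]
      have := hs a
      omega⟩
  have he : Function.Injective e := by
    intro a b hab
    funext i
    have h3 := congrFun (congrArg Subtype.val hab) i.succ
    simp only [e, Fin.cons_succ] at h3
    exact Fin.ext h3
  have h1 := Fintype.card_le_of_injective e he
  rw [Fintype.card_fun, Fintype.card_fin, Fintype.card_fin] at h1
  have h2 : D ≤ n * (D / n + 1) := (Nat.lt_mul_div_succ D (by omega)).le
  calc D ^ n ≤ (n * (D / n + 1)) ^ n := Nat.pow_le_pow_left h2 n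
    _ = n ^ n * (D / n + 1) ^ n := mul_pow _ _ _
    _ ≤ n ^ n * Fintype.card (Mon n D) := Nat.mul_le_mul_left _ h1

private theorem card_mon_le (n : ℕ) (d : Fin n → ℕ) (i : Fin n) :
    Fintype.card (Mon n (d i)) ≤ Fintype.card (Idx d) := by
  classical
  exact Fintype.card_le_of_injective (fun α => (⟨i, α⟩ : Idx d)) fun a b h =>
    eq_of_heq (Sigma.mk.inj_iff.1 h).2

private theorem deg_pow_le (n : ℕ) (hn : 1 ≤ n) (d : Fin n → ℕ) (m : ℕ) (i : Fin n)
    (hdi : 1 ≤ d i) (hi : n ^ (m + 1) ≤ d i ^ m) : d i ^ n ≤ Fintype.card (Idx d) ^ (m + 1) := by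
  have h1 : d i ^ n ≤ n ^ n * Fintype.card (Idx d) :=
    (pow_le_card n hn (d i)).trans (Nat.mul_le_mul_left _ (card_mon_le n d i))
  have h2 : (d i ^ n) ^ m * d i ^ n ≤ (d i ^ n) ^ m * Fintype.card (Idx d) ^ (m + 1) := by
    calc (d i ^ n) ^ m * d i ^ n = (d i ^ n) ^ (m + 1) := (pow_succ _ _).symm
      _ ≤ (n ^ n * Fintype.card (Idx d)) ^ (m + 1) := Nat.pow_le_pow_left h1 _
      _ = (n ^ (m + 1)) ^ n * Fintype.card (Idx d) ^ (m + 1) := by
          rw [mul_pow, ← pow_mul, ← pow_mul, mul_comm n (m + 1)]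
      _ ≤ (d i ^ m) ^ n * Fintype.card (Idx d) ^ (m + 1) :=
          Nat.mul_le_mul_right _ (Nat.pow_le_pow_left hi n)
      _ = (d i ^ n) ^ m * Fintype.card (Idx d) ^ (m + 1) := by
          rw [← pow_mul, ← pow_mul, mul_comm m n]
  exact Nat.le_of_mul_le_mul_left h2 (by positivity)

private theorem prod_deg_le (n : ℕ) (hn : 1 ≤ n) (d : Fin n → ℕ) (hd : ∀ i, 1 ≤ d i) (m : ℕ) :
    ∏ i, d i ≤ Fintype.card (Idx d) ^
      ((Finset.univ.filter fun i => 2 ≤ d i ∧ d i ^ m < n ^ (m + 1)).card + (m + 1)) := by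
  classical
  have hN : 1 ≤ Fintype.card (Idx d) := (hd ⟨0, hn⟩).trans (deg_le n hn d ⟨0, hn⟩)
  rw [← Finset.prod_filter_mul_prod_filter_not Finset.univ
    (fun i => 2 ≤ d i ∧ d i ^ m < n ^ (m + 1)), pow_add (Fintype.card (Idx d)) _ (m + 1)]
  refine Nat.mul_le_mul (Finset.prod_le_pow_card _ _ _ fun i _ => deg_le n hn d i) ?_
  set B := Finset.univ.filter (fun i => ¬ (2 ≤ d i ∧ d i ^ m < n ^ (m + 1))) with hB
  by_cases h : ∃ i ∈ B, 2 ≤ d i
  · obtain ⟨i0, hi0, hi0'⟩ := h
    obtain ⟨j, hj, hjmax⟩ := Finset.exists_max_image B d ⟨i0, hi0⟩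
    have hj2 : 2 ≤ d j := hi0'.trans (hjmax i0 hi0)
    have hjm : n ^ (m + 1) ≤ d j ^ m := by
      rw [hB, Finset.mem_filter] at hj
      by_contra hc
      exact hj.2 ⟨hj2, not_le.1 hc⟩
    calc ∏ i ∈ B, d i ≤ d j ^ B.card := Finset.prod_le_pow_card _ _ _ hjmax
      _ ≤ d j ^ n := Nat.pow_le_pow_right (by omega) (by
          simpa using Finset.card_le_univ B)
      _ ≤ _ := deg_pow_le n hn d m j (hd j) hjm
  · have h1 : ∏ i ∈ B, d i = 1 := by
      refine Finset.prod_eq_one fun i hi => ?_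
      have h2 : ¬ 2 ≤ d i := fun hc => h ⟨i, hi, hc⟩
      have := hd i
      omega
    rw [h1]
    exact Nat.one_le_pow _ _ hN

/-- For all `n ≥ 1` and all degrees `d i ≥ 1`: the expectation of the condition length of the
linear homotopy from `(g, e_0)` over the uniform distribution on the unit sphere of the space of
systems is at most `1400 N^7 ∏ d i`, and this is at most `1400 N^(8 + k + m)` for every `m`, where
`k` is the number of the equations with `2 ≤ d i < n^(1 + 1/m)`. -/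
theorem result (n : ℕ) (hn : 1 ≤ n) (d : Fin n → ℕ) (hd : ∀ i, 1 ≤ d i) :
    St.ExpectationAtMost (Idx d) St.C0 ((1400 * St.dimSys d ^ 7 * ∏ i, d i : ℕ) : ℝ≥0∞) ∧
    ∀ m : ℕ, 1400 * St.dimSys d ^ 7 * ∏ i, d i ≤
      1400 * St.dimSys d ^ (8 + St.numLow d m + m) := by
  refine ⟨?_, fun m => ?_⟩
  · obtain ⟨G, h1, h2, h3⟩ := main_bound n d hn hd
    refine ⟨G, h1, fun f => ?_, ?_⟩
    · rw [St.C0_eq]
      exact h2 f
    · refine le_trans h3 (le_of_eq ?_)
      rw [← ENNReal.ofReal_natCast]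
      congr 1
      unfold St.dimSys
      push_cast
      ring
  · have h1 := prod_deg_le n hn d hd m
    have h2 : 8 + St.numLow d m + m =
        7 + ((Finset.univ.filter fun i => 2 ≤ d i ∧ d i ^ m < n ^ (m + 1)).card + (m + 1)) := by
      unfold St.numLow
      omega
    unfold St.dimSys
    rw [h2, pow_add, ← mul_assoc]
    exact Nat.mul_le_mul_left _ h1

end Pool.Agent.Results.MP_bd3536_an.ConditionLengthBound
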